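import Pool.Agent.TH546.PB.Lag
import Pool.Agent.H924P.Final2

/-! # The diameters of the arcs of a polygon and of the pieces of a walk -/

set_option autoImplicit false

namespace Pool.Agent.TH546.PB

open scoped Classical
open Pool.Agent.W840.CT hiding tail_all
open Pool.Agent.TH546.SAW hiding avg avg2 entropy variational transfer window_mean max_mean
  loop_mean far_mean PL_lower poly_avg poly_entropy
open Pool.Agent.TH546.SG
open Pool.Agent.H924P.G (Y Y_pos one_le_loglog exp_one_le_log prob_eq)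

/-- Euclidean diameter of a path -/
noncomputable def dm {m : ℕ} (v : Fin (m + 1) → ℤ × ℤ) : ℝ :=
  ⨆ q : Fin (m + 1) × Fin (m + 1),
    Real.sqrt (((v q.1).1 - (v q.2).1 : ℝ) ^ 2 + ((v q.1).2 - (v q.2).2 : ℝ) ^ 2)

theorem dm_eq {m : ℕ} (v : Fin (m + 1) → ℤ × ℤ) :
    dm v = Pool.Agent.H979R2.P2.diam (Pool.Agent.H924P.toF m v) := by
  unfold dm Pool.Agent.H979R2.P2.diam Pool.Agent.H979R2.P2.dist2
  congr 1
  funext q
  rw [Fin.sum_univ_two]
  simp [Pool.Agent.H924P.toF]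

theorem dm_exists {m : ℕ} (v : Fin (m + 1) → ℤ × ℤ) : ∃ i j, dm v =
    Real.sqrt (((v i).1 - (v j).1 : ℝ) ^ 2 + ((v i).2 - (v j).2 : ℝ) ^ 2) := by
  obtain ⟨q, hq⟩ := exists_eq_ciSup_of_finite (f := fun q : Fin (m + 1) × Fin (m + 1) =>
    Real.sqrt (((v q.1).1 - (v q.2).1 : ℝ) ^ 2 + ((v q.1).2 - (v q.2).2 : ℝ) ^ 2))
  exact ⟨q.1, q.2, hq.symm⟩

theorem dm_nonneg {m : ℕ} (v : Fin (m + 1) → ℤ × ℤ) : 0 ≤ dm v := by
  obtain ⟨i, j, h⟩ := dm_exists v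
  rw [h]
  exact Real.sqrt_nonneg _

theorem saw_abs {m : ℕ} {v : Fin (m + 1) → ℤ × ℤ} (h : SW m v) : ∀ i : ℕ, i ≤ m →
    |(ex v i).1| + |(ex v i).2| ≤ i := by
  intro i
  induction i with
  | zero =>
    intro _
    rw [h.zero]
    simp
  | succ i ih =>
    intro hi
    have h1 := ih (by omega)
    have h2 := h.step (i := i) (by omega)
    unfold adj at h2
    push_cast
    have a1 := abs_sub_abs_le_abs_sub (ex v (i + 1)).1 (ex v i).1
    have a2 := abs_sub_abs_le_abs_sub (ex v (i + 1)).2 (ex v i).2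
    linarith

theorem dm_le {m : ℕ} {v : Fin (m + 1) → ℤ × ℤ} (h : SW m v) : dm v ≤ 4 * m := by
  obtain ⟨i, j, hd⟩ := dm_exists v
  rw [hd, Real.sqrt_le_left (by positivity)]
  have hi := saw_abs h i.1 (by omega)
  have hj := saw_abs h j.1 (by omega)
  rw [ex_val] at hi hj
  have hi2 : (i.1 : ℤ) ≤ m := by exact_mod_cast (show i.1 ≤ m by omega)
  have hj2 : (j.1 : ℤ) ≤ m := by exact_mod_cast (show j.1 ≤ m by omega)
  have b1 : |(v i).1 - (v j).1| ≤ 2 * (m : ℤ) := by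
    have := abs_sub (v i).1 (v j).1
    have c1 := abs_nonneg (v i).2
    have c2 := abs_nonneg (v j).2
    linarith
  have b2 : |(v i).2 - (v j).2| ≤ 2 * (m : ℤ) := by
    have := abs_sub (v i).2 (v j).2
    have c1 := abs_nonneg (v i).1
    have c2 := abs_nonneg (v j).1
    linarith
  have d1 : ((v i).1 - (v j).1) ^ 2 ≤ (2 * (m : ℤ)) ^ 2 := by
    rw [sq_le_sq, abs_of_nonneg (show (0 : ℤ) ≤ 2 * (m : ℤ) by positivity)]
    exact b1
  have d2 : ((v i).2 - (v j).2) ^ 2 ≤ (2 * (m : ℤ)) ^ 2 := by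
    rw [sq_le_sq, abs_of_nonneg (show (0 : ℤ) ≤ 2 * (m : ℤ) by positivity)]
    exact b2
  have e1 : (((v i).1 - (v j).1 : ℝ)) ^ 2 ≤ (2 * (m : ℝ)) ^ 2 := by exact_mod_cast d1
  have e2 : (((v i).2 - (v j).2 : ℝ)) ^ 2 ≤ (2 * (m : ℝ)) ^ 2 := by exact_mod_cast d2
  nlinarith

theorem far_card : ∃ c C : ℝ, 0 < c ∧ c ≤ 1 / 2 ∧ 0 < C ∧ ∀ m : ℕ, 16 ≤ m →
    (((W m).filter (fun v => v ∈ {v | Y c m ≤ dm v})).card : ℝ) ≤
      C * Real.exp (-(m : ℝ) ^ (4 / 5 : ℝ)) * cn m := by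
  obtain ⟨c, C, hc, hC, h⟩ := Pool.Agent.H979R2.P2.plain_typ Pool.Agent.H979R2.P2.fin
  refine ⟨min c (1 / 2), C, by positivity, min_le_right _ _, hC, fun m hm => ?_⟩
  have hY : Y c m ≤ Y (min c (1 / 2)) m := by
    unfold Y
    have h1 := one_le_loglog hm
    refine Real.rpow_le_rpow_of_exponent_le (by exact_mod_cast (show 1 ≤ m by omega)) ?_
    have h2 : min c (1 / 2) / Real.log (Real.log m) ≤ c / Real.log (Real.log m) :=
      div_le_div_of_nonneg_right (min_le_left _ _) (by linarith)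
    linarith
  have h1 : (((W m).filter (fun v => v ∈ {v | Y (min c (1 / 2)) m ≤ dm v})).card : ℝ) ≤
      (Nat.card {ω : Fin (m + 1) → ℤ × ℤ // H981.IsSAW m ω ∧
        (fun w => Y c m ≤ Pool.Agent.H979R2.P2.diam w) (Pool.Agent.H924P.toF m ω)} : ℝ) := by
    rw [card_filter_W]
    have e : ({ω | SW m ω ∧ ω ∈ {v | Y (min c (1 / 2)) m ≤ dm v}} : Set (Fin (m + 1) → ℤ × ℤ)) ⊆
        {ω | H981.IsSAW m ω ∧
        (fun w => Y c m ≤ Pool.Agent.H979R2.P2.diam w) (Pool.Agent.H924P.toF m ω)} := by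
      rintro ω ⟨h1, h2⟩
      refine ⟨h1, ?_⟩
      simp only [Set.mem_ofPred_eq] at h2 ⊢
      rw [← dm_eq]
      exact hY.trans h2
    have hfin : ({ω | H981.IsSAW m ω ∧
        (fun w => Y c m ≤ Pool.Agent.H979R2.P2.diam w) (Pool.Agent.H924P.toF m ω)} :
        Set (Fin (m + 1) → ℤ × ℤ)).Finite := (SW_finite m).subset (fun ω h => h.1)
    have h2 := Set.ncard_le_ncard e hfin
    rw [← Nat.card_coe_set_eq {ω | H981.IsSAW m ω ∧
        (fun w => Y c m ≤ Pool.Agent.H979R2.P2.diam w) (Pool.Agent.H924P.toF m ω)}] at h2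
    exact_mod_cast h2
  have h0 := prob_eq m (fun w => Y c m ≤ Pool.Agent.H979R2.P2.diam w)
  rw [h0] at h1
  have h2 := h C le_rfl m hm
  have e : H981.C m = cn m := rfl
  rw [e] at h1
  exact h1.trans (mul_le_mul_of_nonneg_right h2 (Nat.cast_nonneg _))

theorem Y_ge {c : ℝ} (_hc : 0 < c) (hc2 : c ≤ 1 / 2) {m : ℕ} (hm : 16 ≤ m) :
    (m : ℝ) ^ (1 / 2 : ℝ) ≤ Y c m := by
  unfold Y
  have h1 := one_le_loglog hm
  refine Real.rpow_le_rpow_of_exponent_le (by exact_mod_cast (show 1 ≤ m by omega)) ?_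
  have h2 : c / Real.log (Real.log m) ≤ 1 / 2 := by
    rw [div_le_iff₀ (by linarith)]
    linarith
  linarith

/-- the fraction of the far pieces -/
theorem frac {C K : ℝ} (hC : 0 < C) (hK : 0 ≤ K) : ∃ K' : ℝ, 0 ≤ K' ∧ ∀ m : ℕ, 16 ≤ m →
    ∀ F : ℝ, 0 ≤ F → F ≤ 1 →
    (∀ x : ℝ, 0 ≤ x → C * Real.exp (-(m : ℝ) ^ (4 / 5 : ℝ)) ≤ Real.exp (-x) →
      x * F ≤ K * Real.log m ^ 2) → F * (m : ℝ) ^ (4 / 5 : ℝ) ≤ K' * Real.log m ^ 2 := by
  refine ⟨2 * K + 2 * |Real.log C|, by positivity, fun m hm F hF0 hF1 h => ?_⟩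
  have hL : 1 ≤ Real.log (m : ℝ) := by
    have h1 := exp_one_le_log hm
    have h2 := Real.add_one_le_exp (1 : ℝ)
    linarith
  have hL2 : 1 ≤ Real.log (m : ℝ) ^ 2 := by nlinarith
  have hm0 : (0 : ℝ) ≤ (m : ℝ) ^ (4 / 5 : ℝ) := by positivity
  by_cases hc : 2 * |Real.log C| ≤ (m : ℝ) ^ (4 / 5 : ℝ)
  · have h1 := h ((m : ℝ) ^ (4 / 5 : ℝ) - |Real.log C|) (by
      have := abs_nonneg (Real.log C)
      linarith) (by
      have e : C = Real.exp (Real.log C) := (Real.exp_log hC).symm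
      rw [e, ← Real.exp_add, Real.log_exp]
      refine Real.exp_le_exp.2 ?_
      have := le_abs_self (Real.log C)
      linarith)
    have h2 : 0 ≤ |Real.log C| * Real.log (m : ℝ) ^ 2 := by positivity
    have h3 : (m : ℝ) ^ (4 / 5 : ℝ) / 2 * F ≤ ((m : ℝ) ^ (4 / 5 : ℝ) - |Real.log C|) * F := by
      refine mul_le_mul_of_nonneg_right ?_ hF0
      linarith
    nlinarith
  · push Not at hc
    calc F * (m : ℝ) ^ (4 / 5 : ℝ) ≤ 1 * (m : ℝ) ^ (4 / 5 : ℝ) := by gcongr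
      _ ≤ 2 * |Real.log C| := by linarith
      _ ≤ (2 * K + 2 * |Real.log C|) * 1 := by linarith
      _ ≤ _ := by gcongr

/-- the contribution of the far pieces to the mean -/
theorem far_term {F K' : ℝ} (hK : 0 ≤ K') {m : ℕ} (hm : 16 ≤ m)
    (h : F * (m : ℝ) ^ (4 / 5 : ℝ) ≤ K' * Real.log m ^ 2) :
    4 * m * F ≤ 200 * K' * (m : ℝ) ^ (1 / 2 : ℝ) := by
  have hm0 : (0 : ℝ) < m := by exact_mod_cast (show 0 < m by omega)
  have h1 : Real.log (m : ℝ) ≤ (m : ℝ) ^ (3 / 20 : ℝ) / (3 / 20 : ℝ) :=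
    Real.log_le_rpow_div hm0.le (by norm_num)
  have h0 : 0 ≤ Real.log (m : ℝ) := Real.log_natCast_nonneg _
  have h2 : Real.log (m : ℝ) ^ 2 ≤ ((m : ℝ) ^ (3 / 20 : ℝ) / (3 / 20 : ℝ)) ^ 2 :=
    pow_le_pow_left₀ h0 h1 2
  have e1 : ((m : ℝ) ^ (3 / 20 : ℝ)) ^ 2 = (m : ℝ) ^ (3 / 10 : ℝ) := by
    rw [← Real.rpow_natCast, ← Real.rpow_mul hm0.le]
    norm_num
  have h3 : Real.log (m : ℝ) ^ 2 ≤ 50 * (m : ℝ) ^ (3 / 10 : ℝ) := by
    refine h2.trans ?_
    rw [div_pow, e1]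
    have : (0 : ℝ) ≤ (m : ℝ) ^ (3 / 10 : ℝ) := by positivity
    rw [div_le_iff₀ (by norm_num)]
    nlinarith
  have h4 : F * (m : ℝ) ^ (4 / 5 : ℝ) ≤ K' * (50 * (m : ℝ) ^ (3 / 10 : ℝ)) :=
    h.trans (mul_le_mul_of_nonneg_left h3 hK)
  have e2 : (m : ℝ) = (m : ℝ) ^ (4 / 5 : ℝ) * (m : ℝ) ^ (1 / 5 : ℝ) := by
    rw [← Real.rpow_add hm0]
    norm_num
  have e3 : (m : ℝ) ^ (1 / 2 : ℝ) = (m : ℝ) ^ (3 / 10 : ℝ) * (m : ℝ) ^ (1 / 5 : ℝ) := by
    rw [← Real.rpow_add hm0]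
    norm_num
  have h5 : (0 : ℝ) ≤ (m : ℝ) ^ (1 / 5 : ℝ) := by positivity
  calc 4 * m * F = 4 * (F * (m : ℝ) ^ (4 / 5 : ℝ)) * (m : ℝ) ^ (1 / 5 : ℝ) := by
        nth_rw 1 [e2]
        ring
    _ ≤ 4 * (K' * (50 * (m : ℝ) ^ (3 / 10 : ℝ))) * (m : ℝ) ^ (1 / 5 : ℝ) := by gcongr
    _ = 200 * K' * (m : ℝ) ^ (1 / 2 : ℝ) := by rw [e3]; ring

/-- **the arcs of a polygon** -/
theorem poly_diam : ∃ c K : ℝ, 0 < c ∧ 0 < K ∧ ∀ m N : ℕ, 16 ≤ m → m ≤ 2 * N - 1 →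
    (((PL N).filter (fun f => Y c m ≤ dm (pp m 0 f))).card : ℝ) * (m : ℝ) ^ (4 / 5 : ℝ) ≤
      (PL N).card * (K * Real.log m ^ 2) ∧
    ∑ f ∈ PL N, dm (pp m 0 f) ≤ (PL N).card * (K * Y c m) := by
  obtain ⟨c, C, hc, hc2, hC, hfar⟩ := far_card
  obtain ⟨K, hK, htr⟩ := poly_transfer (p := 2) (by norm_num) CU2 PLo2
  obtain ⟨K', hK', hfrac⟩ := frac hC hK
  refine ⟨c, 200 * K' + 1, hc, by positivity, fun m N hm hmN => ?_⟩
  have hN1 : 1 ≤ N := by omega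
  have hPL : (0 : ℝ) < (PL N).card := by exact_mod_cast (PL_nonempty (by omega)).card_pos
  obtain ⟨A, hA⟩ : ∃ A : ℝ, A = (((PL N).filter (fun f => Y c m ≤ dm (pp m 0 f))).card : ℝ) :=
    ⟨_, rfl⟩
  rw [← hA]
  have hA0 : 0 ≤ A := by rw [hA]; exact Nat.cast_nonneg _
  have hA1 : A ≤ (PL N).card := by
    rw [hA]
    exact_mod_cast Finset.card_filter_le _ _
  have h1 : (A / (PL N).card) * (m : ℝ) ^ (4 / 5 : ℝ) ≤ K' * Real.log m ^ 2 := by
    refine hfrac m hm (A / (PL N).card) (div_nonneg hA0 hPL.le) ?_ ?_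
    · rw [div_le_one hPL]
      exact hA1
    · intro x hx hxe
      have h2 := htr m N (by omega) hmN {v | Y c m ≤ dm v} x hx
        ((hfar m hm).trans (mul_le_mul_of_nonneg_right hxe (Nat.cast_nonneg _)))
      rw [mul_div_assoc', div_le_iff₀ hPL, hA]
      exact h2
  have hL0 : 0 ≤ Real.log (m : ℝ) ^ 2 := by positivity
  have h3 : A * (m : ℝ) ^ (4 / 5 : ℝ) ≤ (PL N).card * (K' * Real.log m ^ 2) := by
    rw [div_mul_eq_mul_div, div_le_iff₀ hPL] at h1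
    linarith
  refine ⟨h3.trans (mul_le_mul_of_nonneg_left ?_ hPL.le), ?_⟩
  · refine mul_le_mul_of_nonneg_right ?_ hL0
    linarith
  · have hY0 : 0 < Y c m := Y_pos c m hm
    have h4 : ∀ f ∈ PL N, dm (pp m 0 f) ≤
        (if Y c m ≤ dm (pp m 0 f) then 4 * (m : ℝ) else 0) + Y c m := by
      intro f hf
      split_ifs with h5
      · have := dm_le (pp_mem (m := m) (i := 0) hN1 hmN ((mem_PL hN1).1 hf))
        linarith
      · push Not at h5
        linarith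
    have h5 := far_term (F := A / (PL N).card) hK' hm h1
    have h6 := Y_ge hc hc2 hm
    have h7 : 200 * K' * (m : ℝ) ^ (1 / 2 : ℝ) ≤ 200 * K' * Y c m := by gcongr
    calc ∑ f ∈ PL N, dm (pp m 0 f)
        ≤ ∑ f ∈ PL N, ((if Y c m ≤ dm (pp m 0 f) then 4 * (m : ℝ) else 0) + Y c m) :=
          Finset.sum_le_sum h4
      _ = A * (4 * m) + (PL N).card * Y c m := by
          rw [Finset.sum_add_distrib, ← Finset.sum_filter]
          simp only [Finset.sum_const, nsmul_eq_mul]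
          rw [hA]
      _ = (PL N).card * (4 * m * (A / (PL N).card) + Y c m) := by field_simp
      _ ≤ (PL N).card * ((200 * K' + 1) * Y c m) := by
          refine mul_le_mul_of_nonneg_left ?_ hPL.le
          linarith

/-- **the pieces of a walk** -/
theorem walk_diam : ∃ c K : ℝ, 0 < c ∧ 0 < K ∧ ∀ m n : ℕ, 16 ≤ m → m ≤ n →
    (∑ i ∈ Finset.range (n + 1 - m), (((W n).filter (fun ω => Y c m ≤ dm (pc i m ω))).card : ℝ)) *
      (m : ℝ) ^ (4 / 5 : ℝ) ≤ cn n * (n * (K * Real.log m ^ 2)) ∧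
    ∑ i ∈ Finset.range (n + 1 - m), ∑ ω ∈ W n, dm (pc i m ω) ≤ cn n * (n * (K * Y c m)) := by
  obtain ⟨c, C, hc, hc2, hC, hfar⟩ := far_card
  obtain ⟨K, hK, htr⟩ := transfer (p := 2) CU2
  obtain ⟨K', hK', hfrac⟩ := frac hC hK
  refine ⟨c, 200 * K' + 1, hc, by positivity, fun m n hm hmn => ?_⟩
  have hcn : (0 : ℝ) < cn n := lt_of_lt_of_le one_pos (cn_pos n)
  have hn0 : (0 : ℝ) < n := by exact_mod_cast (show 0 < n by omega)
  obtain ⟨A, hA⟩ : ∃ A : ℝ, A = ∑ i ∈ Finset.range (n + 1 - m),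
    (((W n).filter (fun ω => Y c m ≤ dm (pc i m ω))).card : ℝ) := ⟨_, rfl⟩
  rw [← hA]
  have hA0 : 0 ≤ A := by
    rw [hA]
    exact Finset.sum_nonneg (fun _ _ => Nat.cast_nonneg _)
  have hnm : ((n + 1 - m : ℕ) : ℝ) ≤ n := by exact_mod_cast (show n + 1 - m ≤ n by omega)
  have hA1 : A ≤ n * cn n := by
    calc A ≤ ∑ i ∈ Finset.range (n + 1 - m), (cn n : ℝ) := by
          rw [hA]
          refine Finset.sum_le_sum (fun i _ => ?_)
          rw [← card_W]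
          exact_mod_cast Finset.card_filter_le _ _
      _ = ((n + 1 - m : ℕ) : ℝ) * cn n := by
          rw [Finset.sum_const, Finset.card_range, nsmul_eq_mul]
      _ ≤ _ := by gcongr
  have hD : (0 : ℝ) < n * cn n := mul_pos hn0 hcn
  have h1 : (A / (n * cn n)) * (m : ℝ) ^ (4 / 5 : ℝ) ≤ K' * Real.log m ^ 2 := by
    refine hfrac m hm (A / (n * cn n)) (div_nonneg hA0 hD.le) ?_ ?_
    · rw [div_le_one hD]
      exact hA1
    · intro x hx hxe
      have h2 := htr m n (by omega) hmn (fun _ => {v | Y c m ≤ dm v}) x hx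
        (fun i _ => (hfar m hm).trans (mul_le_mul_of_nonneg_right hxe (Nat.cast_nonneg _)))
      rw [mul_div_assoc', div_le_iff₀ hD]
      calc x * A ≤ K * n * Real.log m ^ 2 * cn n := by rw [hA]; exact h2
        _ = _ := by ring
  have hL0 : 0 ≤ Real.log (m : ℝ) ^ 2 := by positivity
  have h3 : A * (m : ℝ) ^ (4 / 5 : ℝ) ≤ cn n * (n * (K' * Real.log m ^ 2)) := by
    rw [div_mul_eq_mul_div, div_le_iff₀ hD] at h1
    linarith
  refine ⟨h3.trans (mul_le_mul_of_nonneg_left ?_ hcn.le), ?_⟩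
  · refine mul_le_mul_of_nonneg_left ?_ hn0.le
    refine mul_le_mul_of_nonneg_right ?_ hL0
    linarith
  · have hY0 : 0 < Y c m := Y_pos c m hm
    have h4 : ∀ i ∈ Finset.range (n + 1 - m), ∀ ω ∈ W n, dm (pc i m ω) ≤
        (if Y c m ≤ dm (pc i m ω) then 4 * (m : ℝ) else 0) + Y c m := by
      intro i hi ω hω
      rw [Finset.mem_range] at hi
      split_ifs with h5
      · have := dm_le (pc_mem (m := m) (i := i) (mem_W.1 hω) (by omega))
        linarith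
      · push Not at h5
        linarith
    have h5 := far_term (F := A / (n * cn n)) hK' hm h1
    have h6 := Y_ge hc hc2 hm
    have h7 : 200 * K' * (m : ℝ) ^ (1 / 2 : ℝ) ≤ 200 * K' * Y c m := by gcongr
    calc ∑ i ∈ Finset.range (n + 1 - m), ∑ ω ∈ W n, dm (pc i m ω)
        ≤ ∑ i ∈ Finset.range (n + 1 - m), ∑ ω ∈ W n,
          ((if Y c m ≤ dm (pc i m ω) then 4 * (m : ℝ) else 0) + Y c m) :=
          Finset.sum_le_sum (fun i hi => Finset.sum_le_sum (fun ω hω => h4 i hi ω hω))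
      _ = A * (4 * m) + ((n + 1 - m : ℕ) : ℝ) * (cn n * Y c m) := by
          simp only [Finset.sum_add_distrib, ← Finset.sum_filter, Finset.sum_const, nsmul_eq_mul,
            Finset.card_range, card_W]
          rw [hA, Finset.sum_mul]
      _ ≤ A * (4 * m) + n * (cn n * Y c m) := by gcongr
      _ = cn n * (n * (4 * m * (A / (n * cn n)) + Y c m)) := by field_simp
      _ ≤ cn n * (n * ((200 * K' + 1) * Y c m)) := by
          refine mul_le_mul_of_nonneg_left ?_ hcn.le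
          refine mul_le_mul_of_nonneg_left ?_ hn0.le
          linarith

end Pool.Agent.TH546.PB
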