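import Pool.Agent.TH546.PB.Trans

/-! # The lags of the contacts of a polygon -/

set_option autoImplicit false

namespace Pool.Agent.TH546.PB

open scoped Classical
open Pool.Agent.W840.CT hiding tail_all
open Pool.Agent.TH546.SAW hiding avg avg2 entropy variational transfer window_mean max_mean
  loop_mean far_mean PL_lower poly_avg poly_entropy
open Pool.Agent.TH546.SG

/-- number of the loops such that the vertex `d` is a neighbour of the root -/
noncomputable def QQ (N d : ℕ) : ℕ :=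
  ((PL N).filter (fun f => adj (f 0) (f ((d : ℕ) : ZMod (2 * N))))).card

/-- stationarity -/
theorem QQ_eq {N : ℕ} (hN : 1 ≤ N) (a d : ℕ) :
    ((PL N).filter (fun f => adj (f ((a : ℕ) : ZMod (2 * N)))
      (f ((a + d : ℕ) : ZMod (2 * N))))).card = QQ N d := by
  have h := sum_rt hN ((a : ℕ) : ZMod (2 * N))
    (fun f => if adj (f 0) (f ((d : ℕ) : ZMod (2 * N))) then (1 : ℝ) else 0)
  unfold QQ
  have e : ∀ f : ZMod (2 * N) → ℤ × ℤ,
      (adj (rt ((a : ℕ) : ZMod (2 * N)) f 0)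
        (rt ((a : ℕ) : ZMod (2 * N)) f ((d : ℕ) : ZMod (2 * N)))) ↔
      adj (f ((a : ℕ) : ZMod (2 * N))) (f ((a + d : ℕ) : ZMod (2 * N))) := by
    intro f
    unfold rt
    rw [adj_sub, add_zero]
    push_cast
    rfl
  simp only [e] at h
  rw [← Finset.sum_filter, ← Finset.sum_filter] at h
  simp only [Finset.sum_const, nsmul_eq_mul, mul_one] at h
  exact_mod_cast h

/-- reversal -/
theorem QQ_symm {N d : ℕ} (hN : 1 ≤ N) (hd : d ≤ 2 * N) : QQ N (2 * N - d) = QQ N d := by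
  rw [← QQ_eq hN d (2 * N - d)]
  unfold QQ
  congr 1
  refine Finset.filter_congr (fun f _ => ?_)
  have e : ((d + (2 * N - d) : ℕ) : ZMod (2 * N)) = 0 := by
    rw [show d + (2 * N - d) = 2 * N by omega]
    exact ZMod.natCast_self _
  rw [e]
  unfold adj
  rw [abs_sub_comm, abs_sub_comm (f 0).2]

/-- lags up to `s + 1` -/
theorem lag_le {N s : ℕ} (hs : 2 ≤ s) (hN : 2 * s ≤ 2 * N - 1) :
    ∑ d ∈ Finset.Icc 2 (s + 1), (d - 1) * QQ N d ≤
      ∑ f ∈ PL N, TT (2 * s) s (pp (2 * s) 0 f) := by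
  have hN1 : 1 ≤ N := by omega
  -- right side as a sum over pairs
  have h1 : ∑ f ∈ PL N, TT (2 * s) s (pp (2 * s) 0 f) =
      ∑ q ∈ (Finset.univ : Finset (Fin (2 * s + 1) × Fin (2 * s + 1))).filter
        (fun q => q.1.1 < s ∧ s < q.2.1), QQ N (q.2.1 - q.1.1) := by
    have e1 : ∀ f ∈ PL N, TT (2 * s) s (pp (2 * s) 0 f) =
        ∑ q ∈ (Finset.univ : Finset (Fin (2 * s + 1) × Fin (2 * s + 1))).filter
        (fun q => q.1.1 < s ∧ s < q.2.1),
          if adj (f ((q.1.1 : ℕ) : ZMod (2 * N))) (f ((q.2.1 : ℕ) : ZMod (2 * N))) then 1 else 0 := by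
      intro f _
      unfold TT
      rw [Finset.card_filter, Finset.sum_filter]
      refine Finset.sum_congr rfl (fun q _ => ?_)
      have e2 : adj (pp (2 * s) (0 : ZMod (2 * N)) f q.1) (pp (2 * s) 0 f q.2) ↔
          adj (f ((q.1.1 : ℕ) : ZMod (2 * N))) (f ((q.2.1 : ℕ) : ZMod (2 * N))) := by
        unfold pp
        rw [adj_sub, zero_add, zero_add]
      simp only [e2]
      by_cases ha : q.1.1 < s
      · by_cases hb : s < q.2.1
        · simp [ha, hb]
        · simp [ha, hb]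
      · simp [ha]
    rw [Finset.sum_congr rfl e1, Finset.sum_comm]
    refine Finset.sum_congr rfl (fun q hq => ?_)
    rw [Finset.mem_filter] at hq
    rw [← Finset.card_filter, ← QQ_eq hN1 q.1.1 (q.2.1 - q.1.1)]
    have e3 : q.1.1 + (q.2.1 - q.1.1) = q.2.1 := by omega
    rw [e3]
  rw [h1]
  -- left side as a sum over pairs
  have h2 : ∑ d ∈ Finset.Icc 2 (s + 1), (d - 1) * QQ N d =
      ∑ x ∈ (Finset.Icc 2 (s + 1)).sigma (fun d => Finset.Icc 1 (d - 1)), QQ N x.1 := by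
    rw [Finset.sum_sigma]
    refine Finset.sum_congr rfl (fun d hd => ?_)
    simp only
    rw [Finset.sum_const, Nat.card_Icc, smul_eq_mul, Nat.add_sub_cancel]
  rw [h2]
  have h3 : ∀ x ∈ (Finset.Icc 2 (s + 1)).sigma (fun d => Finset.Icc 1 (d - 1)),
      QQ N x.1 = (fun q : Fin (2 * s + 1) × Fin (2 * s + 1) => QQ N (q.2.1 - q.1.1))
        ((⟨min (s - x.2) (2 * s), by omega⟩ : Fin (2 * s + 1)),
          (⟨min (s - x.2 + x.1) (2 * s), by omega⟩ : Fin (2 * s + 1))) := by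
    intro x hx
    rw [Finset.mem_sigma, Finset.mem_Icc, Finset.mem_Icc] at hx
    simp only
    congr 1
    omega
  rw [Finset.sum_congr rfl h3, ← Finset.sum_image (g := fun x : (_ : ℕ) × ℕ =>
    (((⟨min (s - x.2) (2 * s), by omega⟩ : Fin (2 * s + 1)),
      (⟨min (s - x.2 + x.1) (2 * s), by omega⟩ : Fin (2 * s + 1))) :
        Fin (2 * s + 1) × Fin (2 * s + 1)))
    (f := fun q : Fin (2 * s + 1) × Fin (2 * s + 1) => QQ N (q.2.1 - q.1.1))]
  · refine Finset.sum_le_sum_of_subset ?_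
    intro q hq
    rw [Finset.mem_image] at hq
    obtain ⟨x, hx, rfl⟩ := hq
    rw [Finset.mem_sigma, Finset.mem_Icc, Finset.mem_Icc] at hx
    simp only [Finset.mem_filter, Finset.mem_univ, true_and]
    omega
  · rintro ⟨d, j⟩ hx ⟨d', j'⟩ hx' heq
    simp only [Finset.coe_sigma, Set.mem_sigma_iff, Finset.mem_coe, Finset.mem_Icc] at hx hx'
    simp only [Prod.mk.injEq, Fin.mk.injEq] at heq
    obtain ⟨h5, h6⟩ := heq
    have e1 : j = j' := by omega
    have e2 : d = d' := by omega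
    subst e1 e2
    rfl

/-- the sum of the lags up to `s + 1` -/
theorem lag_sum {p : ℕ} (hp : 1 ≤ p) (hcu : CU p) (hlo : PLo p) : ∃ K : ℝ, 0 ≤ K ∧
    ∀ s N : ℕ, 2 ≤ s → 3 ≤ N →
    ∑ d ∈ (Finset.Icc 2 N).filter (fun d => d ≤ s + 1), (d : ℝ) * QQ N d ≤
      (PL N).card * (K * Real.log s ^ p) := by
  obtain ⟨K, hK, h⟩ := poly_window hp hcu hlo
  refine ⟨2 * K, by positivity, fun s N hs hN => ?_⟩
  obtain ⟨r, hr⟩ : ∃ r, r = min s (N - 1) := ⟨_, rfl⟩
  have hr2 : 2 ≤ r := by omega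
  have h1 := h r N hr2 (by omega)
  have h2 := lag_le (N := N) (s := r) hr2 (by omega)
  have h3 : ((∑ d ∈ Finset.Icc 2 (r + 1), (d - 1) * QQ N d : ℕ) : ℝ) ≤
      ((∑ f ∈ PL N, TT (2 * r) r (pp (2 * r) 0 f) : ℕ) : ℝ) := by exact_mod_cast h2
  have h4 : ((∑ f ∈ PL N, TT (2 * r) r (pp (2 * r) 0 f) : ℕ) : ℝ) ≤
      (PL N).card * (K * Real.log r ^ p) := by
    push_cast
    exact h1
  have h5 : Real.log r ^ p ≤ Real.log s ^ p := by
    refine pow_le_pow_left₀ (Real.log_natCast_nonneg _) (Real.log_le_log ?_ ?_) p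
    · exact_mod_cast (show 0 < r by omega)
    · exact_mod_cast (show r ≤ s by omega)
  have e : (Finset.Icc 2 N).filter (fun d => d ≤ s + 1) ⊆ Finset.Icc 2 (r + 1) := by
    intro d hd
    rw [Finset.mem_filter, Finset.mem_Icc] at hd
    rw [Finset.mem_Icc]
    omega
  calc ∑ d ∈ (Finset.Icc 2 N).filter (fun d => d ≤ s + 1), (d : ℝ) * QQ N d
      ≤ ∑ d ∈ Finset.Icc 2 (r + 1), (d : ℝ) * QQ N d :=
        Finset.sum_le_sum_of_subset_of_nonneg e (fun _ _ _ => by positivity)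
    _ ≤ ∑ d ∈ Finset.Icc 2 (r + 1), 2 * (((d - 1 : ℕ) : ℝ) * QQ N d) := by
        refine Finset.sum_le_sum (fun d hd => ?_)
        rw [Finset.mem_Icc] at hd
        rw [← mul_assoc]
        refine mul_le_mul_of_nonneg_right ?_ (Nat.cast_nonneg _)
        have : d ≤ 2 * (d - 1) := by omega
        exact_mod_cast this
    _ = 2 * ((∑ d ∈ Finset.Icc 2 (r + 1), (d - 1) * QQ N d : ℕ) : ℝ) := by
        push_cast
        rw [Finset.mul_sum]
    _ ≤ 2 * ((PL N).card * (K * Real.log s ^ p)) := by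
        refine mul_le_mul_of_nonneg_left ((h3.trans h4).trans ?_) (by norm_num)
        gcongr
    _ = _ := by ring

/-- the truncated sum of the lags -/
theorem lag_min {p : ℕ} (hp : 1 ≤ p) (hcu : CU p) (hlo : PLo p) : ∃ K : ℝ, 0 ≤ K ∧
    ∀ m N : ℕ, 2 ≤ m → 3 ≤ N →
    ∑ d ∈ Finset.Icc 2 N, (min d m : ℝ) * QQ N d ≤ (PL N).card * (K * Real.log m ^ p) := by
  obtain ⟨K, hK, h⟩ := lag_sum hp hcu hlo
  have hsP := sP_nonneg p
  refine ⟨K + 2 ^ p * sP p * K, by positivity, fun m N hm hN => ?_⟩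
  have hL1 := log_ge hm
  have hLP0 := LP_nonneg p m
  have hm' : (2 : ℝ) ≤ m := by exact_mod_cast hm
  have hPL : (0 : ℝ) ≤ (PL N).card := Nat.cast_nonneg _
  -- the far contacts, scale by scale
  have hfar : ∀ d ∈ Finset.Icc 2 N, (min d m : ℝ) * QQ N d ≤
      (if d ≤ m + 1 then (d : ℝ) * QQ N d else 0) +
      ∑ k ∈ Finset.range N, (if d ≤ 2 ^ (k + 1) * m + 1 then (d : ℝ) * QQ N d else 0) / 2 ^ k := by
    intro d hd
    rw [Finset.mem_Icc] at hd
    have hQ : (0 : ℝ) ≤ QQ N d := Nat.cast_nonneg _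
    have hnn : ∀ k ∈ Finset.range N,
        0 ≤ (if d ≤ 2 ^ (k + 1) * m + 1 then (d : ℝ) * QQ N d else 0) / 2 ^ k := by
      intro k _
      split_ifs
      · positivity
      · simp
    by_cases h1 : d ≤ m + 1
    · rw [if_pos h1]
      have h2 : (min d m : ℝ) ≤ d := min_le_left _ _
      have h3 := Finset.sum_nonneg hnn
      have h4 := mul_le_mul_of_nonneg_right h2 hQ
      linarith
    · rw [if_neg h1, zero_add]
      push Not at h1
      -- the scale of `d`
      obtain ⟨k, hk1, hk2⟩ : ∃ k, 2 ^ k * m + 1 < d ∧ d ≤ 2 ^ (k + 1) * m + 1 := by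
        have hex : ∃ k, d ≤ 2 ^ (k + 1) * m + 1 := by
          refine ⟨d, ?_⟩
          have h3 := Nat.lt_two_pow_self (n := d + 1)
          have h4 : 2 ^ (d + 1) * 1 ≤ 2 ^ (d + 1) * m := Nat.mul_le_mul_left _ (by omega)
          omega
        refine ⟨Nat.find hex, ?_, Nat.find_spec hex⟩
        rcases Nat.eq_zero_or_pos (Nat.find hex) with h0 | h0
        · rw [h0, pow_zero, one_mul]
          omega
        · have := Nat.find_min hex (m := Nat.find hex - 1) (by omega)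
          rw [show Nat.find hex - 1 + 1 = Nat.find hex by omega] at this
          omega
      have hkN : k < N := by
        have h3 := Nat.lt_two_pow_self (n := k)
        have h4 : 2 ^ k * 1 ≤ 2 ^ k * m := Nat.mul_le_mul_left _ (by omega)
        omega
      have h5 := Finset.single_le_sum hnn (Finset.mem_range.2 hkN)
      refine le_trans ?_ h5
      rw [if_pos hk2, le_div_iff₀ (by positivity)]
      have h6 : (min d m : ℝ) ≤ m := min_le_right _ _
      have h7 : (m : ℝ) * 2 ^ k ≤ d := by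
        have : m * 2 ^ k ≤ d := by rw [mul_comm]; omega
        exact_mod_cast this
      calc (min d m : ℝ) * QQ N d * 2 ^ k ≤ (m : ℝ) * QQ N d * 2 ^ k := by gcongr
        _ = (m : ℝ) * 2 ^ k * QQ N d := by ring
        _ ≤ d * QQ N d := by gcongr
  refine (Finset.sum_le_sum hfar).trans ?_
  rw [Finset.sum_add_distrib, Finset.sum_comm]
  have h0 := h m N hm hN
  rw [Finset.sum_filter] at h0
  have h1 : ∑ k ∈ Finset.range N, ∑ d ∈ Finset.Icc 2 N,
      (if d ≤ 2 ^ (k + 1) * m + 1 then (d : ℝ) * QQ N d else 0) / 2 ^ k ≤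
      ∑ k ∈ Finset.range N, (PL N).card * (2 ^ p * K * Real.log m ^ p) *
        (((k : ℝ) + 1) ^ p / 2 ^ k) := by
    refine Finset.sum_le_sum (fun k _ => ?_)
    have hk1 : 1 ≤ 2 ^ (k + 1) := Nat.one_le_two_pow
    have h1 := h (2 ^ (k + 1) * m) N (by nlinarith) hN
    rw [Finset.sum_filter] at h1
    have e1 : (((2 ^ (k + 1) * m : ℕ)) : ℝ) = 2 ^ (k + 1) * m := by push_cast; ring
    have h2 : Real.log (((2 ^ (k + 1) * m : ℕ)) : ℝ) ≤ 2 * (k + 1) * Real.log m := by
      rw [e1, Real.log_mul (by positivity) (by linarith), Real.log_pow]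
      have h3 : Real.log 2 ≤ Real.log m := Real.log_le_log (by norm_num) hm'
      have h4 : ((k + 1 : ℕ) : ℝ) * Real.log 2 ≤ ((k + 1 : ℕ) : ℝ) * Real.log m :=
        mul_le_mul_of_nonneg_left h3 (Nat.cast_nonneg _)
      push_cast at h4 ⊢
      nlinarith [mul_nonneg (Nat.cast_nonneg (α := ℝ) k) (by linarith : (0 : ℝ) ≤ Real.log m)]
    have h3 : Real.log (((2 ^ (k + 1) * m : ℕ)) : ℝ) ^ p ≤ (2 * (k + 1) * Real.log m) ^ p :=
      pow_le_pow_left₀ (Real.log_natCast_nonneg _) h2 p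
    rw [← Finset.sum_div, div_le_iff₀ (by positivity)]
    calc _ ≤ ((PL N).card : ℝ) * (K * Real.log (((2 ^ (k + 1) * m : ℕ)) : ℝ) ^ p) := h1
      _ ≤ (PL N).card * (K * (2 * (k + 1) * Real.log m) ^ p) := by gcongr
      _ = _ := by
          rw [mul_pow, mul_pow]
          field_simp
  have h2 : ∑ k ∈ Finset.range N, (PL N).card * (2 ^ p * K * Real.log m ^ p) *
        (((k : ℝ) + 1) ^ p / 2 ^ k) ≤ (PL N).card * (2 ^ p * K * Real.log m ^ p) * sP p := by
    rw [← Finset.mul_sum]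
    refine mul_le_mul_of_nonneg_left ?_ (by positivity)
    exact sum_le_sP p N
  calc _ ≤ (PL N).card * (K * Real.log m ^ p) +
        (PL N).card * (2 ^ p * K * Real.log m ^ p) * sP p := add_le_add h0 (h1.trans h2)
    _ = _ := by ring

end Pool.Agent.TH546.PB
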