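import Pool.Agent.TH546.SG.Poly
import Pool.Agent.TH546.SG.Inst2

/-! # Transfer from walks to the arcs of a polygon -/

set_option autoImplicit false

namespace Pool.Agent.TH546.PB

open scoped Classical
open Pool.Agent.W840.CT hiding tail_all
open Pool.Agent.TH546.SAW hiding avg avg2 entropy variational transfer window_mean max_mean
  loop_mean far_mean PL_lower poly_avg poly_entropy
open Pool.Agent.TH546.SG

/-- transfer of rare events -/
theorem poly_transfer {p : ℕ} (hp : 1 ≤ p) (hcu : CU p) (hlo : PLo p) : ∃ K : ℝ, 0 ≤ K ∧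
    ∀ m N : ℕ, 2 ≤ m → m ≤ 2 * N - 1 → ∀ (E : Set (Fin (m + 1) → ℤ × ℤ)) (x : ℝ), 0 ≤ x →
    ((((W m).filter (fun v => v ∈ E)).card : ℝ) ≤ Real.exp (-x) * cn m) →
    x * (((PL N).filter (fun f => pp m 0 f ∈ E)).card : ℝ) ≤
      K * Real.log m ^ p * (PL N).card := by
  obtain ⟨K, hK, h⟩ := poly_avg hp hcu hlo
  obtain ⟨K', hK', hu⟩ := hcu
  refine ⟨K + K' + (3 / 2) ^ p, by positivity, fun m N hm hmN E x hx hE => ?_⟩
  have hone := one_le_LP p hm
  have h1 := log_ge hm
  have hLPm := LP_nonneg p m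
  have hcm : (0 : ℝ) < cn m := lt_of_lt_of_le one_pos (cn_pos m)
  have hmu := mu_pos
  have hlogc : Real.log (cn m) ≤ m * Real.log H981.mu + K' * Real.log m ^ p := by
    have h4 := Real.log_le_log hcm (hu m hm m le_rfl)
    rw [Real.log_mul (by positivity) (Real.exp_pos _).ne', Real.log_exp, Real.log_pow] at h4
    exact h4
  have h3 := h m N hm hmN (fun v => if v ∈ E then Real.exp x else 1)
    (fun v => by
      show (0 : ℝ) ≤ if v ∈ E then Real.exp x else 1
      split_ifs
      · exact (Real.exp_pos _).le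
      · exact zero_le_one)
    (fun f _ => by
      show (0 : ℝ) < if pp m 0 f ∈ E then Real.exp x else 1
      split_ifs
      · exact Real.exp_pos _
      · exact one_pos)
  have h4 : ∑ v ∈ W m, (if v ∈ E then Real.exp x else 1) ≤ 2 * (cn m : ℝ) := by
    calc ∑ v ∈ W m, (if v ∈ E then Real.exp x else 1)
        ≤ ∑ v ∈ W m, ((if v ∈ E then Real.exp x else 0) + 1) := by
          refine Finset.sum_le_sum (fun v _ => ?_)
          split_ifs
          · linarith
          · linarith
      _ = Real.exp x * (((W m).filter (fun v => v ∈ E)).card : ℝ) + cn m := by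
          rw [Finset.sum_add_distrib, ← Finset.sum_filter]
          simp only [Finset.sum_const, nsmul_eq_mul, mul_one]
          rw [card_W, mul_comm]
      _ ≤ Real.exp x * (Real.exp (-x) * cn m) + cn m := by
          gcongr
      _ = 2 * (cn m : ℝ) := by
          rw [← mul_assoc, ← Real.exp_add, add_neg_cancel, Real.exp_zero]
          ring
  have h5 : 0 < ∑ v ∈ W m, (if v ∈ E then Real.exp x else 1) := by
    refine Finset.sum_pos (fun v _ => ?_) (W_nonempty m)
    split_ifs
    · exact Real.exp_pos _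
    · exact one_pos
  have h6 := Real.log_le_log h5 h4
  rw [Real.log_mul (by norm_num) hcm.ne'] at h6
  have h7 : ∑ f ∈ PL N, Real.log (if pp m 0 f ∈ E then Real.exp x else 1) =
      x * (((PL N).filter (fun f => pp m 0 f ∈ E)).card : ℝ) := by
    have h8 : ∀ f ∈ PL N, Real.log (if pp m 0 f ∈ E then Real.exp x else 1) =
        if pp m 0 f ∈ E then x else 0 := by
      intro f _
      split_ifs
      · rw [Real.log_exp]
      · rw [Real.log_one]
    rw [Finset.sum_congr rfl h8, ← Finset.sum_filter, Finset.sum_const, nsmul_eq_mul, mul_comm]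
  rw [h7] at h3
  refine h3.trans ?_
  have h9 : Real.log (∑ v ∈ W m, (if v ∈ E then Real.exp x else 1)) -
      m * Real.log H981.mu + K * Real.log m ^ p ≤ (K + K' + (3 / 2) ^ p) * Real.log m ^ p := by
    have := log_two_bd.2
    nlinarith
  calc ((PL N).card : ℝ) * (Real.log (∑ v ∈ W m, (if v ∈ E then Real.exp x else 1)) -
      m * Real.log H981.mu + K * Real.log m ^ p)
      ≤ ((PL N).card : ℝ) * ((K + K' + (3 / 2) ^ p) * Real.log m ^ p) :=
        mul_le_mul_of_nonneg_left h9 (Nat.cast_nonneg _)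
    _ = _ := by ring

/-- contacts across the middle of an arc -/
theorem poly_window {p : ℕ} (hp : 1 ≤ p) (hcu : CU p) (hlo : PLo p) : ∃ K : ℝ, 0 ≤ K ∧
    ∀ s N : ℕ, 2 ≤ s → 2 * s ≤ 2 * N - 1 →
    ∑ f ∈ PL N, (TT (2 * s) s (pp (2 * s) 0 f) : ℝ) ≤ (PL N).card * (K * Real.log s ^ p) := by
  obtain ⟨K, hK, h⟩ := poly_avg hp hcu hlo
  obtain ⟨K', hK', hu⟩ := hcu
  have hcP := one_le_cP p
  refine ⟨294912 * (20 * (3 / 2) ^ p + 4 * K' + 4 * (K * cP p)), by positivity,
    fun s N hs hN => ?_⟩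
  have hL1 := log_ge hs
  have hone1 := one_le_LP p hs
  have hLP0 := LP_nonneg p s
  set E : ℝ := (3 / 2) ^ p with hE
  have hs' : (2 : ℝ) ≤ s := by exact_mod_cast hs
  have hmu := mu_pos
  have hc2 : (0 : ℝ) < cn s := lt_of_lt_of_le one_pos (cn_pos _)
  have hL4 : Real.log ((2 * s : ℕ) : ℝ) ^ p ≤ 2 * cP p * Real.log s ^ p := by
    have := log_mul_pow_le' hp (m := s) (j := 2) hs (by norm_num)
    push_cast at this ⊢
    linarith
  have hlogc : Real.log (cn s) ≤ s * Real.log H981.mu + K' * Real.log s ^ p := by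
    have h4 := Real.log_le_log hc2 (hu s hs s le_rfl)
    rw [Real.log_mul (by positivity) (Real.exp_pos _).ne', Real.log_exp, Real.log_pow] at h4
    exact h4
  have h3 := h (2 * s) N (by omega) hN
    (fun v => (2 : ℝ) ^ ((TT (2 * s) s v - 204) / 294912))
    (fun v => by positivity) (fun f hf => by positivity)
  have hZ : Real.log (∑ v ∈ W (2 * s), (2 : ℝ) ^ ((TT (2 * s) s v - 204) / 294912)) ≤
      9 + 2 * K' * Real.log s ^ p + ((2 * s : ℕ) : ℝ) * Real.log H981.mu := by
    have h5 : 0 < ∑ v ∈ W (2 * s), (2 : ℝ) ^ ((TT (2 * s) s v - 204) / 294912) :=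
      Finset.sum_pos (fun v _ => by positivity) (W_nonempty _)
    have h6 := Real.log_le_log h5 (exp_moment s)
    rw [Real.log_mul (by norm_num) (by positivity), Real.log_pow] at h6
    have h7 : Real.log 2305 ≤ 8.4 := by
      calc Real.log 2305 ≤ Real.log (2 ^ 12) := Real.log_le_log (by norm_num) (by norm_num)
        _ = 12 * Real.log 2 := by rw [Real.log_pow]; norm_num
        _ ≤ 8.4 := by have := log_two_bd.2; linarith
    have e4 : ((2 * s : ℕ) : ℝ) * Real.log H981.mu = 2 * (s * Real.log H981.mu) := by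
      push_cast; ring
    have e2 : (((2 : ℕ)) : ℝ) = 2 := by norm_num
    rw [e2] at h6
    rw [e4]
    linarith
  set X : (ZMod (2 * N) → ℤ × ℤ) → ℕ := fun f =>
    (TT (2 * s) s (pp (2 * s) 0 f) - 204) / 294912 with hX
  have h8 : ∀ f, (TT (2 * s) s (pp (2 * s) (0 : ZMod (2 * N)) f) : ℝ) ≤
      294912 / Real.log 2 * Real.log ((2 : ℝ) ^ X f) + 300000 := by
    intro f
    rw [Real.log_pow]
    have hl2 := log_two_bd.1
    have e : 294912 / Real.log 2 * (X f * Real.log 2) = 294912 * (X f : ℝ) := by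
      field_simp
    rw [e]
    have h9 : TT (2 * s) s (pp (2 * s) (0 : ZMod (2 * N)) f) ≤ 294912 * X f + 300000 := by
      rw [hX]
      simp only
      set y := TT (2 * s) s (pp (2 * s) (0 : ZMod (2 * N)) f)
      have := Nat.lt_mul_div_succ (y - 204) (show 0 < 294912 by norm_num)
      omega
    exact_mod_cast h9
  have h11 : ∑ f ∈ PL N, (TT (2 * s) s (pp (2 * s) 0 f) : ℝ) ≤
      294912 / Real.log 2 * ∑ f ∈ PL N, Real.log ((2 : ℝ) ^ X f) + (PL N).card * 300000 := by
    calc _ ≤ ∑ f ∈ PL N, (294912 / Real.log 2 * Real.log ((2 : ℝ) ^ X f) + 300000) :=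
          Finset.sum_le_sum (fun f _ => h8 f)
      _ = _ := by
          rw [Finset.sum_add_distrib, ← Finset.mul_sum, Finset.sum_const, nsmul_eq_mul]
  refine h11.trans ?_
  have hPL : (0 : ℝ) ≤ (PL N).card := Nat.cast_nonneg _
  have h12 : ∑ f ∈ PL N, Real.log ((2 : ℝ) ^ X f) ≤ (PL N).card * (9 + 2 * K' * Real.log s ^ p +
      K * Real.log ((2 * s : ℕ) : ℝ) ^ p) := by
    refine h3.trans (mul_le_mul_of_nonneg_left ?_ hPL)
    linarith
  have h13 : 294912 / Real.log 2 * ∑ f ∈ PL N, Real.log ((2 : ℝ) ^ X f) ≤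
      294912 / Real.log 2 * ((PL N).card * (9 + 2 * K' *
        Real.log s ^ p + K * Real.log ((2 * s : ℕ) : ℝ) ^ p)) := by
    have hl2 := log_two_bd.1
    exact mul_le_mul_of_nonneg_left h12 (by positivity)
  refine (add_le_add_left h13 _).trans ?_
  have h14 : 294912 / Real.log 2 ≤ 294912 * 1.5 := by
    have hl2 := log_two_bd.1
    rw [div_le_iff₀ (by linarith)]
    nlinarith
  have h15 : 9 + 2 * K' * Real.log s ^ p + K * Real.log ((2 * s : ℕ) : ℝ) ^ p ≤
      (9 * E + 2 * K' + 2 * (K * cP p)) * Real.log s ^ p := by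
    have e2 := mul_le_mul_of_nonneg_left hL4 hK
    have e5 : (9 * E + 2 * K' + 2 * (K * cP p)) * Real.log s ^ p = 9 * (E * Real.log s ^ p) +
      2 * K' * Real.log s ^ p + K * (2 * cP p * Real.log s ^ p) := by ring
    rw [e5]
    linarith
  calc 294912 / Real.log 2 * ((PL N).card * (9 + 2 * K' *
        Real.log s ^ p + K * Real.log ((2 * s : ℕ) : ℝ) ^ p)) + (PL N).card * 300000
      ≤ 294912 * 1.5 * ((PL N).card * ((9 * E + 2 * K' + 2 * (K * cP p)) * Real.log s ^ p)) +
        (PL N).card * (294912 * 1.5 * (E * Real.log s ^ p)) := by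
        have : (0 : ℝ) ≤ Real.log ((2 * s : ℕ) : ℝ) := Real.log_natCast_nonneg _
        gcongr
        nlinarith
    _ = 294912 * (1.5 * (10 * E + 2 * K' + 2 * (K * cP p))) *
        ((PL N).card * Real.log s ^ p) := by ring
    _ ≤ 294912 * (20 * E + 4 * K' + 4 * (K * cP p)) * ((PL N).card * Real.log s ^ p) := by
        have h16 : (0 : ℝ) ≤ (PL N).card * Real.log s ^ p := by positivity
        refine mul_le_mul_of_nonneg_right ?_ h16
        have h17 : 0 ≤ E := by positivity
        have h18 : 0 ≤ K * cP p := by positivity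
        linarith
    _ = _ := by ring

end Pool.Agent.TH546.PB
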